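import Pool.Agent.Helper6W.Greedy

/-!
Greedy bumps by multiples of four along a rooted spanning tree, and the parity correction by a path
with at most two edges.
-/

namespace Pool.Agent.Helper6W

open SimpleGraph

variable {V : Type} [Fintype V] [DecidableEq V]

lemma pick0 (F : Finset ℕ) : ∃ j, j ≤ F.card ∧ j ∉ F := by
  obtain ⟨j, hj, hjF⟩ := Finset.exists_mem_notMem_of_card_lt_card
    (s := F) (t := Finset.range (F.card + 1)) (by simp)
  rw [Finset.mem_range] at hj
  exact ⟨j, by omega, hjF⟩

/-- Base value plus four times the bumps on the tree edges at `v`. -/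
def DB (B : V → ℕ) (r : V) (par : V → V) (s : V → ℕ) (v : V) : ℕ :=
  B v + 4 * ((if v = r then 0 else s v)
    + ∑ w ∈ Finset.univ.filter (fun w => w ≠ r ∧ par w = v), s w)

lemma DB_update_ne (B : V → ℕ) (r : V) (par : V → V) (s : V → ℕ) {x v : V} (j : ℕ)
    (h1 : v ≠ x) (h2 : par x ≠ v) :
    DB B r par (Function.update s x j) v = DB B r par s v := by
  unfold DB
  rw [Function.update_of_ne h1]
  congr 3
  refine Finset.sum_congr rfl ?_
  intro w hw
  rw [Finset.mem_filter] at hw
  have : w ≠ x := by
    rintro rfl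
    exact h2 hw.2.2
  rw [Function.update_of_ne this]

lemma DB_update_self (B : V → ℕ) (r : V) (par : V → V) (s : V → ℕ) {x : V} (j : ℕ)
    (h1 : x ≠ r) (h2 : par x ≠ x) :
    DB B r par (Function.update s x j) x = (B x
      + 4 * ∑ w ∈ Finset.univ.filter (fun w => w ≠ r ∧ par w = x), s w) + 4 * j := by
  unfold DB
  rw [if_neg h1, Function.update_self]
  have : ∑ w ∈ Finset.univ.filter (fun w => w ≠ r ∧ par w = x), Function.update s x j w
      = ∑ w ∈ Finset.univ.filter (fun w => w ≠ r ∧ par w = x), s w := by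
    refine Finset.sum_congr rfl ?_
    intro w hw
    rw [Finset.mem_filter] at hw
    have : w ≠ x := by
      rintro rfl
      exact h2 hw.2.2
    rw [Function.update_of_ne this]
  rw [this]
  ring

lemma greedyB (B : V → ℕ) (r : V) (par : V → V) (K : SimpleGraph V) [DecidableRel K.Adj]
    (ℓ : V → ℕ) (hℓ : ∀ w, w ≠ r → ℓ w = ℓ (par w) + 1) :
    ∀ (n : ℕ) (T : Finset V), T.card = n → r ∉ T → (∀ w, w ≠ r → par w ∈ T → w ∈ T) →
      ∃ s : V → ℕ,
        (∀ u ∈ T, ∀ v ∈ T, K.Adj u v → DB B r par s u ≠ DB B r par s v) ∧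
        2 * ∑ v ∈ T, s v ≤ E2 K T := by
  intro n
  induction n with
  | zero =>
    intro T hT _ _
    rw [Finset.card_eq_zero] at hT
    subst hT
    exact ⟨fun _ => 0, by simp, by simp⟩
  | succ n ih =>
    intro T hT hr hcl
    have hne : T.Nonempty := by
      rw [← Finset.card_pos]; omega
    obtain ⟨x, hx, hmin⟩ := Finset.exists_min_image T ℓ hne
    have hxr : x ≠ r := fun h => hr (h ▸ hx)
    have hparT : ∀ u ∈ T, par x ≠ u := by
      intro u hu h
      have h1 := hℓ x hxr
      have h2 := hmin u hu
      rw [h] at h1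
      omega
    obtain ⟨s, hs2, hs3⟩ := ih (T.erase x) (by rw [Finset.card_erase_of_mem hx]; omega)
      (fun h => hr (Finset.mem_of_mem_erase h)) (by
        intro w hw hpw
        have hpT := Finset.mem_of_mem_erase hpw
        refine Finset.mem_erase.mpr ⟨?_, hcl w hw hpT⟩
        rintro rfl
        exact hparT _ hpT rfl)
    set base := B x + 4 * ∑ w ∈ Finset.univ.filter (fun w => w ≠ r ∧ par w = x), s w
      with hbase
    obtain ⟨j, hj2, hj3⟩ := pick0 ((K.neighborFinset x ∩ T.erase x).image
      (fun u => (DB B r par s u - base) / 4))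
    have hj2' : j ≤ (K.neighborFinset x ∩ T.erase x).card := by
      have := Finset.card_image_le (s := K.neighborFinset x ∩ T.erase x)
        (f := fun u => (DB B r par s u - base) / 4)
      omega
    have hself : DB B r par (Function.update s x j) x = base + 4 * j :=
      DB_update_self B r par s j hxr (hparT x hx)
    have hother : ∀ u ∈ T.erase x, DB B r par (Function.update s x j) u = DB B r par s u := by
      intro u hu
      exact DB_update_ne B r par s j (Finset.ne_of_mem_erase hu)
        (hparT u (Finset.mem_of_mem_erase hu))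
    have hx2 : ∀ u ∈ T.erase x, K.Adj x u → DB B r par s u ≠ base + 4 * j := by
      intro u hu hxu h
      apply hj3
      rw [Finset.mem_image]
      refine ⟨u, Finset.mem_inter.mpr ⟨(mem_nb K u x).mpr hxu, hu⟩, ?_⟩
      rw [h]
      omega
    refine ⟨Function.update s x j, ?_, ?_⟩
    · intro u hu v hv huv
      by_cases hux : u = x
      · subst hux
        have hvu : v ∈ T.erase u := Finset.mem_erase.mpr ⟨huv.ne.symm, hv⟩
        rw [hself, hother v hvu]
        exact (hx2 v hvu huv).symm
      · have hu' : u ∈ T.erase x := Finset.mem_erase.mpr ⟨hux, hu⟩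
        by_cases hvx : v = x
        · subst hvx
          rw [hself, hother u hu']
          exact hx2 u hu' huv.symm
        · have hv' : v ∈ T.erase x := Finset.mem_erase.mpr ⟨hvx, hv⟩
          rw [hother u hu', hother v hv']
          exact hs2 u hu' v hv' huv
    · have hins : T = insert x (T.erase x) := (Finset.insert_erase hx).symm
      have hE : E2 K T = E2 K (T.erase x) + 2 * (K.neighborFinset x ∩ T.erase x).card := by
        conv_lhs => rw [hins]
        exact E2_insert K _ (Finset.notMem_erase x T)
      have hsum : ∑ v ∈ T, (Function.update s x j v)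
          = j + ∑ v ∈ T.erase x, s v := by
        rw [← Finset.add_sum_erase _ _ hx, Function.update_self]
        congr 1
        refine Finset.sum_congr rfl ?_
        intro v hv
        rw [Function.update_of_ne (Finset.ne_of_mem_erase hv)]
      rw [hsum, hE]
      omega

lemma par_z (n : ℕ) (h : 2 ≤ n) : (n / 2 + (n - 1) / 2 + (n - 1) / 2 + (n - 2) / 2) % 2 = 1 := by
  have h1 : (n - 2) / 2 = n / 2 - 1 := by omega
  have h2 : 1 ≤ n / 2 := by omega
  rw [h1]
  generalize n / 2 = a at *
  generalize (n - 1) / 2 = b at *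
  omega

lemma par_x (n : ℕ) : (n / 2 + (n - 1) / 2 + n / 2 + (n - 1) / 2) % 2 = 0 := by
  generalize n / 2 = a at *
  generalize (n - 1) / 2 = b at *
  omega

lemma par_y (n : ℕ) : (n / 2 + n / 2 + (n - 1) / 2 + (n - 1) / 2) % 2 = 0 := by
  generalize n / 2 = a at *
  generalize (n - 1) / 2 = b at *
  omega

lemma par_o (n : ℕ) : (n / 2 + n / 2 + n / 2 + n / 2) % 2 = 0 := by
  generalize n / 2 = a at *
  omega

/-- One of the four walks `nil`, `xz`, `zy`, `xzy` makes the parity sum vanish. -/
lemma cherry_parity (G : SimpleGraph V) [DecidableRel G.Adj] (c0 : V → ZMod 2) (M : V → ℕ)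
    {x z y : V} (hxz : G.Adj x z) (hzy : G.Adj z y) (hxy : x ≠ y) (hM : 2 ≤ M z) :
    ∃ (p q : V) (w0 : G.Walk p q) (κ : V → ℕ), (∀ e, w0.edges.count e ≤ 1) ∧
      (∀ e, w0.edges.count e ≠ 0 → e = s(x, z) ∨ e = s(z, y)) ∧
      (∀ v, ∑ u ∈ G.neighborFinset v, w0.edges.count s(v, u) = κ v) ∧
      ∑ v, (c0 v + (((M v - κ v) / 2 : ℕ) : ZMod 2)) = 0 := by
  have hne1 : x ≠ z := hxz.ne
  have hne2 : z ≠ y := hzy.ne
  have hes : s(x, z) ≠ s(z, y) := by
    simp only [ne_eq, Sym2.eq_iff]
    rintro (⟨h, _⟩ | ⟨h, _⟩)
    · exact hne1 h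
    · exact hxy h
  let κ1 : V → ℕ := fun v => (if v = x then 1 else 0) + (if v = z then 1 else 0)
  let κ2 : V → ℕ := fun v => (if v = z then 1 else 0) + (if v = y then 1 else 0)
  let κ3 : V → ℕ := fun v => κ1 v + κ2 v
  let S : (V → ℕ) → ZMod 2 := fun κ => ∑ v, (c0 v + (((M v - κ v) / 2 : ℕ) : ZMod 2))
  have hS : S (fun _ => 0) + S κ1 + S κ2 + S κ3 = 1 := by
    simp only [S]
    rw [← Finset.sum_add_distrib, ← Finset.sum_add_distrib, ← Finset.sum_add_distrib]
    have hterm : ∀ v ∈ (Finset.univ : Finset V),
        (c0 v + (((M v - 0) / 2 : ℕ) : ZMod 2)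
        + (c0 v + (((M v - κ1 v) / 2 : ℕ) : ZMod 2))
        + (c0 v + (((M v - κ2 v) / 2 : ℕ) : ZMod 2))
        + (c0 v + (((M v - κ3 v) / 2 : ℕ) : ZMod 2)))
        = if v = z then 1 else 0 := by
      intro v _
      have h4 : (4 : ZMod 2) = 0 := by decide
      have h5 : (c0 v + (((M v - 0) / 2 : ℕ) : ZMod 2)
        + (c0 v + (((M v - κ1 v) / 2 : ℕ) : ZMod 2))
        + (c0 v + (((M v - κ2 v) / 2 : ℕ) : ZMod 2))
        + (c0 v + (((M v - κ3 v) / 2 : ℕ) : ZMod 2)))
        = (((M v - 0) / 2 + (M v - κ1 v) / 2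
            + (M v - κ2 v) / 2 + (M v - κ3 v) / 2 : ℕ) : ZMod 2) := by
        push_cast
        linear_combination (c0 v) * h4
      rw [h5]
      by_cases hvz : v = z
      · subst hvz
        rw [if_pos rfl]
        refine (ZMod.natCast_eq_one_iff_odd).mpr ?_
        simp only [κ3, κ1, κ2, if_pos, if_neg hne1.symm, if_neg hne2, Nat.zero_add,
          Nat.add_zero, Nat.sub_zero]
        rw [Nat.odd_iff]
        exact par_z _ hM
      · rw [if_neg hvz]
        refine (ZMod.natCast_eq_zero_iff_even).mpr ?_
        rw [Nat.even_iff]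
        simp only [κ3, κ1, κ2, if_neg hvz]
        by_cases hvx : v = x
        · have hvy : v ≠ y := fun h => hxy (hvx.symm.trans h)
          simp only [if_pos hvx, if_neg hvy, Nat.add_zero, Nat.sub_zero]
          exact par_x _
        · by_cases hvy : v = y
          · simp only [if_neg hvx, if_pos hvy, Nat.zero_add, Nat.add_zero, Nat.sub_zero]
            exact par_y _
          · simp only [if_neg hvx, if_neg hvy, Nat.add_zero, Nat.sub_zero]
            exact par_o _
    rw [Finset.sum_congr rfl hterm]
    simp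
  have hz : ∀ a b c d : ZMod 2, a + b + c + d = 1 → a = 0 ∨ b = 0 ∨ c = 0 ∨ d = 0 := by decide
  rcases hz _ _ _ _ hS with h | h | h | h
  · exact ⟨x, x, Walk.nil, fun _ => 0, by simp, by simp, by simp, h⟩
  · refine ⟨x, z, Walk.cons hxz Walk.nil, κ1, ?_, ?_, ?_, h⟩
    · intro e
      rw [Walk.edges_cons, Walk.edges_nil, List.count_cons, List.count_nil]
      split_ifs <;> omega
    · intro e he
      left
      by_contra hne
      apply he
      rw [Walk.edges_cons, Walk.edges_nil, List.count_cons, List.count_nil]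
      simp [Ne.symm hne]
    · intro v
      show _ = (if v = x then 1 else 0) + (if v = z then 1 else 0)
      rw [← edge_sum G hxz v]
      refine Finset.sum_congr rfl ?_
      intro u _
      rw [Walk.edges_cons, Walk.edges_nil, List.count_cons, List.count_nil, zero_add]
      simp only [beq_iff_eq, @eq_comm _ s(x, z)]
  · refine ⟨z, y, Walk.cons hzy Walk.nil, κ2, ?_, ?_, ?_, h⟩
    · intro e
      rw [Walk.edges_cons, Walk.edges_nil, List.count_cons, List.count_nil]
      split_ifs <;> omega
    · intro e he
      right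
      by_contra hne
      apply he
      rw [Walk.edges_cons, Walk.edges_nil, List.count_cons, List.count_nil]
      simp [Ne.symm hne]
    · intro v
      show _ = (if v = z then 1 else 0) + (if v = y then 1 else 0)
      rw [← edge_sum G hzy v]
      refine Finset.sum_congr rfl ?_
      intro u _
      rw [Walk.edges_cons, Walk.edges_nil, List.count_cons, List.count_nil, zero_add]
      simp only [beq_iff_eq, @eq_comm _ s(z, y)]
  · refine ⟨x, y, Walk.cons hxz (Walk.cons hzy Walk.nil), κ3, ?_, ?_, ?_, h⟩
    · intro e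
      rw [Walk.edges_cons, Walk.edges_cons, Walk.edges_nil, List.count_cons, List.count_cons,
        List.count_nil]
      by_cases h1 : s(x, z) = e
      · have h2 : s(z, y) ≠ e := fun h => hes (h1.trans h.symm)
        simp [h1, h2]
      · simp only [beq_iff_eq, h1, if_false]
        split_ifs <;> omega
    · intro e he
      by_contra hne
      push Not at hne
      apply he
      rw [Walk.edges_cons, Walk.edges_cons, Walk.edges_nil, List.count_cons, List.count_cons,
        List.count_nil]
      simp [Ne.symm hne.1, Ne.symm hne.2]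
    · intro v
      show _ = κ1 v + κ2 v
      simp only [κ1, κ2]
      rw [← edge_sum G hxz v, ← edge_sum G hzy v, ← Finset.sum_add_distrib]
      refine Finset.sum_congr rfl ?_
      intro u _
      rw [Walk.edges_cons, Walk.edges_cons, Walk.edges_nil, List.count_cons, List.count_cons,
        List.count_nil, zero_add]
      simp only [beq_iff_eq, @eq_comm _ s(x, z), @eq_comm _ s(z, y)]
      rw [add_comm]

end Pool.Agent.Helper6W
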