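import Pool.Agent.Helper6W.Walk

/-!
Greedy choice of the multiplicities along a rooted spanning tree.
-/

namespace Pool.Agent.Helper6W

open SimpleGraph

variable {V : Type} [Fintype V] [DecidableEq V]

lemma pick (F : Finset ℕ) : ∃ j, 1 ≤ j ∧ j ≤ F.card + 1 ∧ j ∉ F := by
  obtain ⟨j, hj, hjF⟩ := Finset.exists_mem_notMem_of_card_lt_card
    (s := F) (t := Finset.Icc 1 (F.card + 1)) (by simp)
  rw [Finset.mem_Icc] at hj
  exact ⟨j, hj.1, hj.2, hjF⟩

/-- Degree in `G` plus twice the values on the tree edges at `v` (`s v` is the value of the edge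
from `v` to its parent). -/
def DD (G : SimpleGraph V) [DecidableRel G.Adj] (r : V) (par : V → V) (s : V → ℕ) (v : V) : ℕ :=
  G.degree v + 2 * ((if v = r then 0 else s v)
    + ∑ w ∈ Finset.univ.filter (fun w => w ≠ r ∧ par w = v), s w)

section

variable (G : SimpleGraph V) [DecidableRel G.Adj] (r : V) (par : V → V)

lemma DD_update_ne (s : V → ℕ) {x v : V} (j : ℕ) (h1 : v ≠ x) (h2 : par x ≠ v) :
    DD G r par (Function.update s x j) v = DD G r par s v := by
  unfold DD
  rw [Function.update_of_ne h1]
  congr 3
  refine Finset.sum_congr rfl ?_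
  intro w hw
  rw [Finset.mem_filter] at hw
  have : w ≠ x := by
    rintro rfl
    exact h2 hw.2.2
  rw [Function.update_of_ne this]

lemma DD_update_self (s : V → ℕ) {x : V} (j : ℕ) (h1 : x ≠ r) (h2 : par x ≠ x) :
    DD G r par (Function.update s x j) x = (G.degree x
      + 2 * ∑ w ∈ Finset.univ.filter (fun w => w ≠ r ∧ par w = x), s w) + 2 * j := by
  unfold DD
  rw [if_neg h1, Function.update_self]
  have : ∑ w ∈ Finset.univ.filter (fun w => w ≠ r ∧ par w = x), Function.update s x j w
      = ∑ w ∈ Finset.univ.filter (fun w => w ≠ r ∧ par w = x), s w := by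
    refine Finset.sum_congr rfl ?_
    intro w hw
    rw [Finset.mem_filter] at hw
    have : w ≠ x := by
      rintro rfl
      exact h2 hw.2.2
    rw [Function.update_of_ne this]
  rw [this]
  ring

lemma DD_update_root (s : V → ℕ) {x : V} (j : ℕ) (h1 : x ≠ r) (h2 : par x = r) :
    DD G r par (Function.update s x j) r = (G.degree r
      + 2 * ∑ w ∈ (Finset.univ.filter (fun w => w ≠ r ∧ par w = r)).erase x, s w) + 2 * j := by
  unfold DD
  rw [if_pos rfl, zero_add]
  have hx : x ∈ Finset.univ.filter (fun w => w ≠ r ∧ par w = r) := by simp [h1, h2]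
  rw [← Finset.add_sum_erase _ _ hx, Function.update_self]
  have : ∑ w ∈ (Finset.univ.filter (fun w => w ≠ r ∧ par w = r)).erase x, Function.update s x j w
      = ∑ w ∈ (Finset.univ.filter (fun w => w ≠ r ∧ par w = r)).erase x, s w := by
    refine Finset.sum_congr rfl ?_
    intro w hw
    rw [Function.update_of_ne (Finset.ne_of_mem_erase hw)]
  rw [this]
  ring

/-- Twice the number of edges of `K` inside `T`. -/
def E2 (K : SimpleGraph V) [DecidableRel K.Adj] (T : Finset V) : ℕ :=
  ∑ v ∈ T, (K.neighborFinset v ∩ T).card

omit [DecidableEq V] in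
lemma mem_nb (K : SimpleGraph V) [DecidableRel K.Adj] (u v : V) :
    u ∈ K.neighborFinset v ↔ K.Adj v u := by simp

lemma E2_insert (K : SimpleGraph V) [DecidableRel K.Adj] (T : Finset V) {x : V} (hx : x ∉ T) :
    E2 K (insert x T) = E2 K T + 2 * (K.neighborFinset x ∩ T).card := by
  unfold E2
  rw [Finset.sum_insert hx]
  have h1 : (K.neighborFinset x ∩ insert x T) = K.neighborFinset x ∩ T := by
    ext u
    simp only [Finset.mem_inter, Finset.mem_insert, mem_nb]
    constructor
    · rintro ⟨h, rfl | h'⟩
      · exact absurd h (K.irrefl)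
      · exact ⟨h, h'⟩
    · rintro ⟨h, h'⟩
      exact ⟨h, Or.inr h'⟩
  have h2 : ∀ v ∈ T, (K.neighborFinset v ∩ insert x T).card
      = (K.neighborFinset v ∩ T).card + (if K.Adj x v then 1 else 0) := by
    intro v hv
    by_cases h : K.Adj x v
    · rw [if_pos h]
      have : K.neighborFinset v ∩ insert x T = insert x (K.neighborFinset v ∩ T) := by
        ext u
        simp only [Finset.mem_inter, Finset.mem_insert, mem_nb]
        constructor
        · rintro ⟨h, rfl | h'⟩
          · exact Or.inl rfl
          · exact Or.inr ⟨h, h'⟩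
        · rintro (rfl | ⟨h', h''⟩)
          · exact ⟨h.symm, Or.inl rfl⟩
          · exact ⟨h', Or.inr h''⟩
      rw [this, Finset.card_insert_of_notMem]
      simp [hx]
    · rw [if_neg h, add_zero]
      congr 1
      ext u
      simp only [Finset.mem_inter, Finset.mem_insert, mem_nb]
      constructor
      · rintro ⟨h5, rfl | h'⟩
        · exact absurd h5.symm h
        · exact ⟨h5, h'⟩
      · rintro ⟨h5, h'⟩
        exact ⟨h5, Or.inr h'⟩
  rw [h1, Finset.sum_congr rfl h2, Finset.sum_add_distrib]
  have h3 : ∑ v ∈ T, (if K.Adj x v then 1 else 0 : ℕ) = (K.neighborFinset x ∩ T).card := by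
    rw [← Finset.sum_filter, ← Finset.card_eq_sum_ones]
    congr 1
    ext u
    simp only [Finset.mem_filter, Finset.mem_inter, mem_nb]
    tauto
  rw [h3]
  ring

lemma E2_univ (K : SimpleGraph V) [DecidableRel K.Adj] :
    E2 K Finset.univ = 2 * K.edgeFinset.card := by
  unfold E2
  simp only [Finset.inter_univ, SimpleGraph.card_neighborFinset_eq_degree]
  exact K.sum_degrees_eq_twice_card_edges

lemma greedy (K : SimpleGraph V) [DecidableRel K.Adj] (ℓ : V → ℕ)
    (hℓ : ∀ w, w ≠ r → ℓ w = ℓ (par w) + 1) :
    ∀ (n : ℕ) (T : Finset V), T.card = n → r ∉ T → (∀ w, w ≠ r → par w ∈ T → w ∈ T) →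
      ∃ s : V → ℕ, (∀ v, 1 ≤ s v) ∧
        (∀ u ∈ T, ∀ v ∈ T, K.Adj u v → DD G r par s u ≠ DD G r par s v) ∧
        2 * ∑ v ∈ T, (s v - 1) ≤ E2 K T := by
  intro n
  induction n with
  | zero =>
    intro T hT _ _
    rw [Finset.card_eq_zero] at hT
    subst hT
    exact ⟨fun _ => 1, fun _ => le_rfl, by simp, by simp⟩
  | succ n ih =>
    intro T hT hr hcl
    have hne : T.Nonempty := by
      rw [← Finset.card_pos]; omega
    obtain ⟨x, hx, hmin⟩ := Finset.exists_min_image T ℓ hne
    have hxr : x ≠ r := fun h => hr (h ▸ hx)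
    have hparT : ∀ u ∈ T, par x ≠ u := by
      intro u hu h
      have h1 := hℓ x hxr
      have h2 := hmin u hu
      rw [h] at h1
      omega
    obtain ⟨s, hs1, hs2, hs3⟩ := ih (T.erase x) (by rw [Finset.card_erase_of_mem hx]; omega)
      (fun h => hr (Finset.mem_of_mem_erase h)) (by
        intro w hw hpw
        have hpT := Finset.mem_of_mem_erase hpw
        refine Finset.mem_erase.mpr ⟨?_, hcl w hw hpT⟩
        rintro rfl
        exact hparT _ hpT rfl)
    set base := G.degree x + 2 * ∑ w ∈ Finset.univ.filter (fun w => w ≠ r ∧ par w = x), s w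
      with hbase
    obtain ⟨j, hj1, hj2, hj3⟩ := pick ((K.neighborFinset x ∩ T.erase x).image
      (fun u => (DD G r par s u - base) / 2))
    have hj2' : j ≤ (K.neighborFinset x ∩ T.erase x).card + 1 := by
      have := Finset.card_image_le (s := K.neighborFinset x ∩ T.erase x)
        (f := fun u => (DD G r par s u - base) / 2)
      omega
    have hself : DD G r par (Function.update s x j) x = base + 2 * j :=
      DD_update_self G r par s j hxr (hparT x hx)
    have hother : ∀ u ∈ T.erase x, DD G r par (Function.update s x j) u = DD G r par s u := by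
      intro u hu
      exact DD_update_ne G r par s j (Finset.ne_of_mem_erase hu)
        (hparT u (Finset.mem_of_mem_erase hu))
    have hx2 : ∀ u ∈ T.erase x, K.Adj x u → DD G r par s u ≠ base + 2 * j := by
      intro u hu hxu h
      apply hj3
      rw [Finset.mem_image]
      refine ⟨u, Finset.mem_inter.mpr ⟨(mem_nb K u x).mpr hxu, hu⟩, ?_⟩
      rw [h]
      omega
    refine ⟨Function.update s x j, ?_, ?_, ?_⟩
    · intro v
      by_cases h : v = x
      · subst h; rw [Function.update_self]; exact hj1
      · rw [Function.update_of_ne h]; exact hs1 v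
    · intro u hu v hv huv
      by_cases hux : u = x
      · subst hux
        have hvu : v ∈ T.erase u := Finset.mem_erase.mpr ⟨huv.ne.symm, hv⟩
        rw [hself, hother v hvu]
        exact (hx2 v hvu huv).symm
      · have hu' : u ∈ T.erase x := Finset.mem_erase.mpr ⟨hux, hu⟩
        by_cases hvx : v = x
        · subst hvx
          rw [hself, hother u hu']
          exact hx2 u hu' huv.symm
        · have hv' : v ∈ T.erase x := Finset.mem_erase.mpr ⟨hvx, hv⟩
          rw [hother u hu', hother v hv']
          exact hs2 u hu' v hv' huv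
    · have hins : T = insert x (T.erase x) := (Finset.insert_erase hx).symm
      have hE : E2 K T = E2 K (T.erase x) + 2 * (K.neighborFinset x ∩ T.erase x).card := by
        conv_lhs => rw [hins]
        exact E2_insert K _ (Finset.notMem_erase x T)
      have hsum : ∑ v ∈ T, (Function.update s x j v - 1)
          = (j - 1) + ∑ v ∈ T.erase x, (s v - 1) := by
        rw [← Finset.add_sum_erase _ _ hx, Function.update_self]
        congr 1
        refine Finset.sum_congr rfl ?_
        intro v hv
        rw [Function.update_of_ne (Finset.ne_of_mem_erase hv)]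
      rw [hsum, hE]
      omega

/-- The greedy choice completed at the root. -/
lemma greedy_root (K : SimpleGraph V) [DecidableRel K.Adj] (ℓ : V → ℕ)
    (hℓ : ∀ w, w ≠ r → ℓ w = ℓ (par w) + 1) {a b : V} (hab : a ≠ b) (har : a ≠ r) (hbr : b ≠ r)
    (hpa : par a = r) (hpb : par b = r) :
    ∃ s : V → ℕ, (∀ v, 1 ≤ s v) ∧
      (∀ u v, K.Adj u v → DD G r par s u ≠ DD G r par s v) ∧
      ∑ v ∈ Finset.univ.erase r, (s v - 1) ≤ K.edgeFinset.card := by
  have hparself : ∀ w, w ≠ r → par w ≠ w := by
    intro w hw h
    have := hℓ w hw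
    rw [h] at this
    omega
  set T0 : Finset V := ((Finset.univ.erase r).erase a).erase b with hT0
  have hrT0 : r ∉ T0 := by simp [hT0]
  have haT0 : a ∉ T0 := by simp [hT0]
  have hbT0 : b ∉ T0 := by simp [hT0]
  have hcl : ∀ w, w ≠ r → par w ∈ T0 → w ∈ T0 := by
    intro w hw hpw
    simp only [hT0, Finset.mem_erase, Finset.mem_univ, and_true]
    refine ⟨?_, ?_, hw⟩
    · rintro rfl
      exact hrT0 (hpb ▸ hpw)
    · rintro rfl
      exact hrT0 (hpa ▸ hpw)
  obtain ⟨s0, h1, h2, h3⟩ := greedy G r par K ℓ hℓ _ T0 rfl hrT0 hcl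
  -- step a
  set baseb := G.degree b + 2 * ∑ w ∈ Finset.univ.filter (fun w => w ≠ r ∧ par w = b), s0 w
    with hbaseb
  set basea := G.degree a + 2 * ∑ w ∈ Finset.univ.filter (fun w => w ≠ r ∧ par w = a), s0 w
    with hbasea
  set c0 := G.degree r + 2 * ∑ w ∈ ((Finset.univ.filter (fun w => w ≠ r ∧ par w = r)).erase b).erase a,
    s0 w with hc0
  obtain ⟨ja, hja1, hja2, hja3⟩ := pick ((K.neighborFinset a ∩ T0).image
      (fun u => (DD G r par s0 u - basea) / 2)
      ∪ (if K.Adj r b then {(baseb - c0) / 2} else ∅))
  have hja2' : ja ≤ (K.neighborFinset a ∩ T0).card + (if K.Adj r b then 1 else 0) + 1 := by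
    have e1 := Finset.card_image_le (s := K.neighborFinset a ∩ T0)
        (f := fun u => (DD G r par s0 u - basea) / 2)
    have e2 := Finset.card_union_le ((K.neighborFinset a ∩ T0).image
      (fun u => (DD G r par s0 u - basea) / 2))
      (if K.Adj r b then {(baseb - c0) / 2} else (∅ : Finset ℕ))
    have e3 : (if K.Adj r b then {(baseb - c0) / 2} else (∅ : Finset ℕ)).card
        = (if K.Adj r b then 1 else 0) := by
      split_ifs <;> simp
    omega
  set s1 := Function.update s0 a ja with hs1
  have hselfa : DD G r par s1 a = basea + 2 * ja := DD_update_self G r par s0 ja har (hparself a har)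
  have hother1 : ∀ u, u ≠ a → u ≠ r → DD G r par s1 u = DD G r par s0 u := by
    intro u hu hur
    exact DD_update_ne G r par s0 ja hu (fun h => hur (h.symm.trans hpa))
  have hTne : ∀ u ∈ T0, u ≠ a ∧ u ≠ b ∧ u ≠ r := by
    intro u hu
    refine ⟨?_, ?_, ?_⟩
    · rintro rfl; exact haT0 hu
    · rintro rfl; exact hbT0 hu
    · rintro rfl; exact hrT0 hu
  have hA : ∀ u ∈ T0, K.Adj a u → DD G r par s1 u ≠ DD G r par s1 a := by
    intro u hu hau h
    rw [hselfa, hother1 u (hTne u hu).1 (hTne u hu).2.2] at h
    apply hja3
    refine Finset.mem_union_left _ ?_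
    rw [Finset.mem_image]
    refine ⟨u, Finset.mem_inter.mpr ⟨(mem_nb K u a).mpr hau, hu⟩, ?_⟩
    rw [h]
    omega
  have hrootb : K.Adj r b → c0 + 2 * ja ≠ baseb := by
    intro hrb h
    apply hja3
    refine Finset.mem_union_right _ ?_
    rw [if_pos hrb, Finset.mem_singleton]
    omega
  -- step b
  set baseb1 := G.degree b + 2 * ∑ w ∈ Finset.univ.filter (fun w => w ≠ r ∧ par w = b), s1 w
    with hbaseb1
  have hbb : baseb1 = baseb := by
    rw [hbaseb1, hbaseb]
    congr 2
    refine Finset.sum_congr rfl ?_
    intro w hw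
    rw [Finset.mem_filter] at hw
    have : w ≠ a := by
      rintro rfl
      exact hbr (hw.2.2.symm.trans hpa)
    rw [hs1, Function.update_of_ne this]
  set c1 := G.degree r + 2 * ∑ w ∈ (Finset.univ.filter (fun w => w ≠ r ∧ par w = r)).erase b, s1 w
    with hc1
  have hcc : c1 = c0 + 2 * ja := by
    rw [hc1, hc0]
    have hx : a ∈ (Finset.univ.filter (fun w => w ≠ r ∧ par w = r)).erase b := by
      simp [hab, har, hpa]
    rw [← Finset.add_sum_erase _ _ hx, hs1, Function.update_self]
    have : ∑ w ∈ ((Finset.univ.filter (fun w => w ≠ r ∧ par w = r)).erase b).erase a,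
        Function.update s0 a ja w
        = ∑ w ∈ ((Finset.univ.filter (fun w => w ≠ r ∧ par w = r)).erase b).erase a, s0 w := by
      refine Finset.sum_congr rfl ?_
      intro w hw
      rw [Function.update_of_ne (Finset.ne_of_mem_erase hw)]
    rw [this]
    ring
  obtain ⟨jb, hjb1, hjb2, hjb3⟩ := pick ((K.neighborFinset b ∩ insert a T0).image
      (fun u => (DD G r par s1 u - baseb1) / 2)
      ∪ ((K.neighborFinset r).erase b).image (fun u => (DD G r par s1 u - c1) / 2))
  have hjb2' : jb ≤ (K.neighborFinset b ∩ insert a T0).card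
      + ((K.neighborFinset r).erase b).card + 1 := by
    have e1 := Finset.card_image_le (s := K.neighborFinset b ∩ insert a T0)
        (f := fun u => (DD G r par s1 u - baseb1) / 2)
    have e3 := Finset.card_image_le (s := (K.neighborFinset r).erase b)
        (f := fun u => (DD G r par s1 u - c1) / 2)
    have e2 := Finset.card_union_le ((K.neighborFinset b ∩ insert a T0).image
      (fun u => (DD G r par s1 u - baseb1) / 2))
      (((K.neighborFinset r).erase b).image (fun u => (DD G r par s1 u - c1) / 2))
    omega
  set s2 := Function.update s1 b jb with hs2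
  have hselfb : DD G r par s2 b = baseb1 + 2 * jb :=
    DD_update_self G r par s1 jb hbr (hparself b hbr)
  have hroot : DD G r par s2 r = c1 + 2 * jb := DD_update_root G r par s1 jb hbr hpb
  have hother2 : ∀ u, u ≠ b → u ≠ r → DD G r par s2 u = DD G r par s1 u := by
    intro u hu hur
    exact DD_update_ne G r par s1 jb hu (fun h => hur (h.symm.trans hpb))
  have hB : ∀ u ∈ insert a T0, K.Adj b u → DD G r par s2 u ≠ DD G r par s2 b := by
    intro u hu hbu h
    have hub : u ≠ b := hbu.ne.symm
    have hur : u ≠ r := by
      rcases Finset.mem_insert.mp hu with rfl | h'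
      · exact har
      · exact (hTne u h').2.2
    rw [hselfb, hother2 u hub hur] at h
    apply hjb3
    refine Finset.mem_union_left _ ?_
    rw [Finset.mem_image]
    refine ⟨u, Finset.mem_inter.mpr ⟨(mem_nb K u b).mpr hbu, hu⟩, ?_⟩
    rw [h]
    omega
  have hR : ∀ u, u ≠ r → K.Adj r u → DD G r par s2 u ≠ DD G r par s2 r := by
    intro u hur hru h
    by_cases hub : u = b
    · subst hub
      rw [hselfb, hroot, hbb, hcc] at h
      exact hrootb hru (by omega)
    · rw [hroot, hother2 u hub hur] at h
      apply hjb3
      refine Finset.mem_union_right _ ?_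
      rw [Finset.mem_image]
      refine ⟨u, Finset.mem_erase.mpr ⟨hub, (mem_nb K u r).mpr hru⟩, ?_⟩
      rw [h]
      omega
  refine ⟨s2, ?_, ?_, ?_⟩
  · intro v
    rw [hs2]
    by_cases h : v = b
    · subst h; rw [Function.update_self]; exact hjb1
    · rw [Function.update_of_ne h, hs1]
      by_cases h' : v = a
      · subst h'; rw [Function.update_self]; exact hja1
      · rw [Function.update_of_ne h']; exact h1 v
  · have hsym : ∀ u v, K.Adj u v → u ≠ r → u ≠ b → DD G r par s2 u ≠ DD G r par s2 v := by
      intro u v huv hur hub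
      by_cases hvr : v = r
      · subst hvr
        exact hR u hur huv.symm
      · by_cases hvb : v = b
        · subst hvb
          refine hB u ?_ huv.symm
          by_cases hua : u = a
          · exact Finset.mem_insert.mpr (Or.inl hua)
          · refine Finset.mem_insert.mpr (Or.inr ?_)
            simp [hT0, hub, hua, hur]
        · rw [hother2 u hub hur, hother2 v hvb hvr]
          by_cases hua : u = a
          · subst hua
            refine (hA v ?_ huv).symm
            simp [hT0, hvb, hvr, huv.ne.symm]
          · by_cases hva : v = a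
            · subst hva
              refine hA u ?_ huv.symm
              simp [hT0, hub, hua, hur]
            · rw [hother1 u hua hur, hother1 v hva hvr]
              exact h2 u (by simp [hT0, hub, hua, hur]) v (by simp [hT0, hvb, hva, hvr]) huv
    intro u v huv
    by_cases hu : u ≠ r ∧ u ≠ b
    · exact hsym u v huv hu.1 hu.2
    · by_cases hv : v ≠ r ∧ v ≠ b
      · exact (hsym v u huv.symm hv.1 hv.2).symm
      · have hu' : u = r ∨ u = b := by tauto
        have hv' : v = r ∨ v = b := by tauto
        rcases hu' with rfl | rfl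
        · rcases hv' with rfl | rfl
          · exact absurd huv K.irrefl
          · exact (hR v hbr huv).symm
        · rcases hv' with rfl | rfl
          · exact hR u hbr huv.symm
          · exact absurd huv K.irrefl
  · have hE1 : E2 K (insert a T0) = E2 K T0 + 2 * (K.neighborFinset a ∩ T0).card :=
      E2_insert K T0 haT0
    have hE2 : E2 K (insert b (insert a T0)) = E2 K (insert a T0)
        + 2 * (K.neighborFinset b ∩ insert a T0).card :=
      E2_insert K _ (by simp [hbT0, hab.symm])
    have hE3 : E2 K (insert r (insert b (insert a T0))) = E2 K (insert b (insert a T0))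
        + 2 * (K.neighborFinset r ∩ insert b (insert a T0)).card :=
      E2_insert K _ (by simp [hrT0, har.symm, hbr.symm])
    have huniv : insert r (insert b (insert a T0)) = Finset.univ := by
      ext v
      simp only [hT0, Finset.mem_insert, Finset.mem_erase, Finset.mem_univ, and_true, iff_true]
      tauto
    have hnr : (K.neighborFinset r ∩ insert b (insert a T0)) = K.neighborFinset r := by
      ext v
      simp only [hT0, Finset.mem_inter, Finset.mem_insert, Finset.mem_erase, Finset.mem_univ,
        and_true, mem_nb]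
      constructor
      · exact fun h => h.1
      · intro h
        refine ⟨h, ?_⟩
        have := h.ne.symm
        tauto
    have hcardr : ((K.neighborFinset r).erase b).card + (if K.Adj r b then 1 else 0)
        = (K.neighborFinset r).card := by
      by_cases h : K.Adj r b
      · rw [if_pos h]
        exact Finset.card_erase_add_one ((mem_nb K b r).mpr h)
      · rw [if_neg h, add_zero, Finset.erase_eq_of_notMem]
        exact fun h' => h ((mem_nb K b r).mp h')
    rw [huniv, hnr, E2_univ] at hE3
    have hsum : ∑ v ∈ Finset.univ.erase r, (s2 v - 1)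
        = (ja - 1) + ((jb - 1) + ∑ v ∈ T0, (s0 v - 1)) := by
      have ha1 : a ∈ Finset.univ.erase r := by simp [har]
      have hb1 : b ∈ (Finset.univ.erase r).erase a := by simp [hbr, hab.symm]
      rw [← Finset.add_sum_erase _ _ ha1, ← Finset.add_sum_erase _ _ hb1]
      have e1 : s2 a = ja := by
        rw [hs2, Function.update_of_ne hab, hs1, Function.update_self]
      have e2 : s2 b = jb := by
        rw [hs2, Function.update_self]
      rw [e1, e2]
      congr 2
      refine Finset.sum_congr rfl ?_
      intro v hv
      rw [hs2, Function.update_of_ne (hTne v hv).2.1, hs1, Function.update_of_ne (hTne v hv).1]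
    rw [hsum]
    omega

end

end Pool.Agent.Helper6W
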