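import Pool.Agent.Helper6W.Bump

/-!
A walk of length at most `m + 2(n-1) + 4q`, where `q` is the number of edges joining two vertices at
equal distance from the root.
-/

namespace Pool.Agent.Helper6W

open SimpleGraph

variable {V : Type} [Fintype V] [DecidableEq V]

lemma tjoin (G : SimpleGraph V) [DecidableRel G.Adj] (hc : G.Connected)
    (b : V → ZMod 2) (hb : ∑ v, b v = 0) :
    ∃ h : Sym2 V → ZMod 2, ∀ v, ∑ u ∈ G.neighborFinset v, h s(v, u) = b v := by
  let S : Submodule (ZMod 2) (V → ZMod 2) :=
    { carrier := {b | ∃ h : Sym2 V → ZMod 2, ∀ v, ∑ u ∈ G.neighborFinset v, h s(v, u) = b v}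
      add_mem' := by
        rintro p q ⟨h, hh⟩ ⟨k, hk⟩
        exact ⟨fun e => h e + k e, fun v => by
          rw [Finset.sum_add_distrib, hh, hk]; rfl⟩
      zero_mem' := ⟨fun _ => 0, fun v => by simp⟩
      smul_mem' := by
        rintro r p ⟨h, hh⟩
        exact ⟨fun e => r * h e, fun v => by
          rw [← Finset.mul_sum, hh]; rfl⟩ }
  have hadj : ∀ a c, G.Adj a c → (Pi.single a 1 + Pi.single c 1 : V → ZMod 2) ∈ S := by
    intro a c hac
    refine ⟨fun e => if e = s(a, c) then 1 else 0, fun v => ?_⟩
    have := edge_sum G hac v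
    have h2 := congrArg (Nat.cast : ℕ → ZMod 2) this
    push_cast at h2
    rw [h2]
    simp [Pi.single_apply]
  obtain ⟨r⟩ := hc.nonempty
  have hall : ∀ v, (Pi.single r 1 + Pi.single v 1 : V → ZMod 2) ∈ S := by
    intro v
    refine conn_closed hc (fun v => (Pi.single r 1 + Pi.single v 1 : V → ZMod 2) ∈ S) (a := r)
      ?_ ?_ v
    · have : (Pi.single r 1 + Pi.single r 1 : V → ZMod 2) = 0 := by
        funext v
        simp [CharTwo.add_self_eq_zero]
      simp only [this]
      exact S.zero_mem
    · intro u v hu huv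
      have h1 := S.add_mem hu (hadj u v huv)
      have h2 : (Pi.single r 1 + Pi.single u 1 + (Pi.single u 1 + Pi.single v 1) : V → ZMod 2)
          = Pi.single r 1 + Pi.single v 1 := by
        funext i
        simp only [Pi.add_apply]
        have := CharTwo.add_self_eq_zero ((Pi.single u (1 : ZMod 2) : V → ZMod 2) i)
        linear_combination this
      rw [h2] at h1
      exact h1
  have hbS : b ∈ S := by
    have h1 : b = ∑ v, b v • (Pi.single r 1 + Pi.single v 1 : V → ZMod 2) := by
      funext i
      rw [Finset.sum_apply]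
      simp only [Pi.smul_apply, Pi.add_apply, smul_eq_mul, mul_add, Finset.sum_add_distrib]
      rw [← Finset.sum_mul, hb, zero_mul, zero_add]
      simp [Pi.single_apply]
    rw [h1]
    exact S.sum_mem (fun v _ => S.smul_mem _ (hall v))
  exact hbS

omit [Fintype V] in
lemma exists_parent' {G : SimpleGraph V} (hc : G.Connected) (r v : V) :
    ∃ u, v ≠ r → G.Adj v u ∧ G.dist v r = G.dist u r + 1 := by
  by_cases hv : v = r
  · exact ⟨v, fun h => absurd hv h⟩
  · obtain ⟨p, hp⟩ := hc.exists_walk_length_eq_dist v r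
    cases p with
    | nil => exact absurd rfl hv
    | cons h q =>
      rename_i u
      refine ⟨u, fun _ => ⟨h, ?_⟩⟩
      rw [Walk.length_cons] at hp
      have h1 : G.dist u r ≤ q.length := SimpleGraph.dist_le q
      have h2 : G.dist v r ≤ G.dist v u + G.dist u r := hc.dist_triangle
      have h3 : G.dist v u = 1 := SimpleGraph.dist_eq_one_iff_adj.mpr h
      omega

/-- The edges of `G` that join two vertices at equal distance from `r`. -/
def levelGraph (G : SimpleGraph V) (r : V) : SimpleGraph V where
  Adj u v := G.Adj u v ∧ G.dist u r = G.dist v r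
  symm := ⟨fun _ _ h => ⟨h.1.symm, h.2.symm⟩⟩
  loopless := ⟨fun _ h => G.irrefl h.1⟩

/-- One run: base multiplicities `tb` with second binary digits `c`, bumped greedily. -/
lemma run (G : SimpleGraph V) [DecidableRel G.Adj] (hc : G.Connected) (r : V) (par : V → V)
    (hpar : ∀ v, v ≠ r → G.Adj v (par v) ∧ G.dist v r = G.dist (par v) r + 1)
    (K : SimpleGraph V) [DecidableRel K.Adj]
    (hK : ∀ u v, K.Adj u v ↔ (G.Adj u v ∧ G.dist u r = G.dist v r))
    {p q : V} (w0 : G.Walk p q) (tb : Sym2 V → ℕ)
    (htb : ∀ e ∈ G.edgeSet, w0.edges.count e ≤ tb e ∧ Even (tb e - w0.edges.count e))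
    (hpos : ∀ x, x ≠ r → 0 < tb s(x, par x)) (B : V → ℕ)
    (hB : ∀ v, B v = ∑ u ∈ G.neighborFinset v, (1 + tb s(v, u)))
    (hdig : ∀ u v : V, G.Adj u v → G.dist u r ≠ G.dist v r →
      ∀ i j : ℕ, B u + 4 * i ≠ B v + 4 * j) :
    ∃ w : G.Walk p q, Irregularising G w ∧
      w.length ≤ ∑ e ∈ G.edgeFinset, tb e + 4 * K.edgeFinset.card := by
  have hℓ : ∀ w, w ≠ r → G.dist w r = G.dist (par w) r + 1 := fun w hw => (hpar w hw).2
  obtain ⟨s, hs2, hs3⟩ := greedyB B r par K (fun v => G.dist v r) hℓ _ (Finset.univ.erase r) rfl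
    (Finset.notMem_erase _ _) (by
      intro w hw _
      exact Finset.mem_erase.mpr ⟨hw, Finset.mem_univ _⟩)
  let t : Sym2 V → ℕ := fun e =>
    tb e + 4 * ∑ x ∈ Finset.univ.erase r, (if e = s(x, par x) then s x else 0)
  have htpos : ∀ x, x ≠ r → 0 < t s(x, par x) := by
    intro x hx
    have h2 := hpos x hx
    show 0 < _ + _
    omega
  have hreach : ∀ S : V → Prop, S p → (∀ a b, S a → G.Adj a b → 0 < t s(a, b) → S b) →
      ∀ v, S v := by
    intro S hS hcl
    have hup : ∀ x, x ≠ r → S x → S (par x) := fun x hx hSx =>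
      hcl x (par x) hSx (hpar x hx).1 (htpos x hx)
    have hdown : ∀ x, x ≠ r → S (par x) → S x := fun x hx hSx =>
      hcl (par x) x hSx (hpar x hx).1.symm (by rw [Sym2.eq_swap]; exact htpos x hx)
    have key : ∀ n : ℕ, ∀ v, G.dist v r = n → (S v ↔ S r) := by
      intro n
      induction n with
      | zero =>
        intro v hv
        rw [(hc.dist_eq_zero_iff).mp hv]
      | succ n ih =>
        intro v hv
        have hvr : v ≠ r := by
          rintro rfl
          rw [SimpleGraph.dist_self] at hv
          omega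
        have h1 := hℓ v hvr
        rw [← ih (par v) (by omega)]
        exact ⟨hup v hvr, hdown v hvr⟩
    intro v
    exact (key _ v rfl).mpr ((key _ p rfl).mp hS)
  obtain ⟨w, hw, hlen⟩ := exists_walk' G t hreach w0
    (fun e he => by
      obtain ⟨h1, k, hk⟩ := htb e he
      refine ⟨by show _ ≤ _ + _; omega,
        ⟨k + 2 * ∑ x ∈ Finset.univ.erase r, (if e = s(x, par x) then s x else 0), ?_⟩⟩
      show _ + _ - _ = _
      omega)
  have hdeg : ∀ v, degPlus G w v = DB B r par s v := by
    intro v
    unfold degPlus DB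
    have h1 : ∀ u ∈ G.neighborFinset v, 1 + w.edges.count s(v, u)
        = (1 + tb s(v, u))
          + 4 * ∑ x ∈ Finset.univ.erase r, s x * (if s(v, u) = s(x, par x) then 1 else 0) := by
      intro u hu
      have hvu : G.Adj v u := by simpa using hu
      rw [hw s(v, u) (by simpa using hvu)]
      simp only [t]
      rw [add_assoc]
      congr 3
      refine Finset.sum_congr rfl ?_
      intro x _
      split_ifs <;> simp
    rw [Finset.sum_congr rfl h1, Finset.sum_add_distrib, ← hB v, ← Finset.mul_sum,
      Finset.sum_comm]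
    congr 2
    have h2 : ∀ x ∈ Finset.univ.erase r,
        ∑ u ∈ G.neighborFinset v, s x * (if s(v, u) = s(x, par x) then 1 else 0)
        = (if v = x then s x else 0) + (if par x = v then s x else 0) := by
      intro x hx
      rw [← Finset.mul_sum, edge_sum G (hpar x (Finset.ne_of_mem_erase hx)).1 v, mul_add]
      congr 1
      · split_ifs <;> simp
      · by_cases h : v = par x
        · rw [if_pos h, if_pos h.symm, mul_one]
        · rw [if_neg h, if_neg (fun h' => h h'.symm), mul_zero]
    rw [Finset.sum_congr rfl h2, Finset.sum_add_distrib]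
    congr 1
    · rw [Finset.sum_ite_eq]
      by_cases h : v = r
      · simp [h]
      · simp [h]
    · rw [← Finset.sum_filter]
      refine Finset.sum_congr ?_ (fun _ _ => rfl)
      ext x
      simp
  have hlen2 : w.length = ∑ e ∈ G.edgeFinset, tb e + 4 * ∑ x ∈ Finset.univ.erase r, s x := by
    rw [hlen]
    simp only [t]
    rw [Finset.sum_add_distrib, ← Finset.mul_sum, Finset.sum_comm]
    congr 2
    refine Finset.sum_congr rfl ?_
    intro x hx
    rw [Finset.sum_ite_eq', if_pos]
    simpa using (hpar x (Finset.ne_of_mem_erase hx)).1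
  have hE : E2 K (Finset.univ.erase r) ≤ 2 * K.edgeFinset.card := by
    have h1 := E2_insert K (Finset.univ.erase r) (Finset.notMem_erase r Finset.univ)
    rw [Finset.insert_erase (Finset.mem_univ r), E2_univ] at h1
    omega
  refine ⟨w, ?_, ?_⟩
  · intro u v huv
    rw [hdeg u, hdeg v]
    by_cases hp : G.dist u r = G.dist v r
    · have hur : u ≠ r := by
        rintro rfl
        rw [SimpleGraph.dist_self] at hp
        exact huv.ne ((hc.dist_eq_zero_iff).mp hp.symm).symm
      have hvr : v ≠ r := by
        rintro rfl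
        rw [SimpleGraph.dist_self] at hp
        exact huv.ne ((hc.dist_eq_zero_iff).mp hp)
      exact hs2 u (by simp [hur]) v (by simp [hvr]) ((hK u v).mpr ⟨huv, hp⟩)
    · unfold DB
      exact hdig u v huv hp _ _
  · rw [hlen2]
    omega

end Pool.Agent.Helper6W
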