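import Pool.Agent.Helper6W.Level

/-!
For every vertex `r` of degree at least two of a connected graph `G`, there is an irregularising walk
of length at most `m + 2(n-1) + 4q`, where `q` is the number of edges of `G` joining two vertices at
equal distance from `r`.
-/

namespace Pool.Agent.Helper6W.LevelThm

open SimpleGraph Pool.Agent.Helper6W

variable {V : Type} [Fintype V] [DecidableEq V]

noncomputable instance (G : SimpleGraph V) [DecidableRel G.Adj] (r : V) : DecidableRel (levelGraph G r).Adj :=
  fun u v => inferInstanceAs (Decidable (G.Adj u v ∧ G.dist u r = G.dist v r))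

lemma level_aux (G : SimpleGraph V) [DecidableRel G.Adj] (hc : G.Connected) {r a b : V}
    (har : G.Adj a r) (hrb : G.Adj r b) (hab : a ≠ b) :
    ∃ (x y : V) (w : G.Walk x y), Irregularising G w ∧
      w.length ≤ G.edgeFinset.card + 2 * (Fintype.card V - 1)
        + 4 * (levelGraph G r).edgeFinset.card := by
  choose par hpar using exists_parent' hc r
  have hpr : ∀ w, G.Adj w r → par w = r := by
    intro w hw
    have h1 := (hpar w hw.ne).2
    have h2 : G.dist w r = 1 := SimpleGraph.dist_eq_one_iff_adj.mpr hw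
    have h4 : G.dist (par w) r = 0 := by omega
    exact (hc.dist_eq_zero_iff).mp h4
  set TE : Finset (Sym2 V) := (Finset.univ.erase r).image (fun x => s(x, par x)) with hTE
  have hmem : ∀ x, x ≠ r → s(x, par x) ∈ TE := by
    intro x hx
    rw [hTE, Finset.mem_image]
    exact ⟨x, by simp [hx], rfl⟩
  have hTEar : s(a, r) ∈ TE := by
    have := hmem a har.ne
    rwa [hpr a har] at this
  have hTErb : s(r, b) ∈ TE := by
    have := hmem b hrb.ne.symm
    rw [hpr b hrb.symm, Sym2.eq_swap] at this
    exact this
  let M : V → ℕ := fun v => ∑ u ∈ G.neighborFinset v, (1 + 2 * (if s(v, u) ∈ TE then 1 else 0))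
  have hM : 2 ≤ M r := by
    have h1 := Finset.single_le_sum (f := fun u => (1 + 2 * (if s(r, u) ∈ TE then 1 else 0)))
      (s := G.neighborFinset r) (fun _ _ => Nat.zero_le _) ((mem_nb G b r).mpr hrb)
    simp only [if_pos hTErb] at h1
    show 2 ≤ ∑ u ∈ G.neighborFinset r, _
    omega
  let c : V → ZMod 2 := fun v => ((G.dist v r : ℕ) : ZMod 2)
  obtain ⟨p, q, w0, κ, hk1, hk2, hκ, hsum⟩ := cherry_parity G c M har hrb hab hM
  obtain ⟨h, hh⟩ := tjoin G hc _ hsum
  have hval : ∀ e, (h e).val ≤ 1 := fun e => by
    have := ZMod.val_lt (h e)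
    omega
  have hk0 : ∀ e, e ∉ TE → w0.edges.count e = 0 := by
    intro e he
    by_contra hne
    rcases hk2 e hne with rfl | rfl
    · exact he hTEar
    · exact he hTErb
  let tA : Sym2 V → ℕ := fun e =>
    if e ∈ TE then 2 - w0.edges.count e + 2 * (h e).val else 2 * (h e).val
  let tB : Sym2 V → ℕ := fun e =>
    if e ∈ TE then 4 + w0.edges.count e - 2 * (h e).val else 2 - 2 * (h e).val
  let BA : V → ℕ := fun v => ∑ u ∈ G.neighborFinset v, (1 + tA s(v, u))
  let BB : V → ℕ := fun v => ∑ u ∈ G.neighborFinset v, (1 + tB s(v, u))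
  have hA : ∀ v, BA v + κ v = M v + 2 * ∑ u ∈ G.neighborFinset v, (h s(v, u)).val := by
    intro v
    rw [← hκ v]
    simp only [BA, M]
    rw [← Finset.sum_add_distrib, Finset.mul_sum, ← Finset.sum_add_distrib]
    refine Finset.sum_congr rfl ?_
    intro u _
    have h1 := hk1 s(v, u)
    simp only [tA]
    by_cases hT : s(v, u) ∈ TE
    · rw [if_pos hT, if_pos hT]
      omega
    · rw [if_neg hT, if_neg hT, hk0 _ hT]
      omega
  have hAB : ∀ v, BA v + BB v
      = 4 * ∑ u ∈ G.neighborFinset v, (1 + (if s(v, u) ∈ TE then 1 else 0)) := by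
    intro v
    simp only [BA, BB]
    rw [← Finset.sum_add_distrib, Finset.mul_sum]
    refine Finset.sum_congr rfl ?_
    intro u _
    have h1 := hk1 s(v, u)
    have h2 := hval s(v, u)
    simp only [tA, tB]
    by_cases hT : s(v, u) ∈ TE
    · rw [if_pos hT, if_pos hT, if_pos hT]
      omega
    · rw [if_neg hT, if_neg hT, if_neg hT]
      omega
  have hκM : ∀ v, κ v ≤ M v := by
    intro v
    rw [← hκ v]
    refine Finset.sum_le_sum ?_
    intro u _
    have h1 := hk1 s(v, u)
    show _ ≤ 1 + _
    omega
  have hdig0 : ∀ v, ((BA v / 2 : ℕ) : ZMod 2) = c v := by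
    intro v
    have h1 := hA v
    have h2 := hκM v
    have h4 : BA v / 2 = (M v - κ v) / 2 + ∑ u ∈ G.neighborFinset v, (h s(v, u)).val := by omega
    rw [h4]
    push_cast
    have h5 : (∑ u ∈ G.neighborFinset v, (((h s(v, u)).val : ℕ) : ZMod 2))
        = c v + (((M v - κ v) / 2 : ℕ) : ZMod 2) := by
      rw [← hh v]
      refine Finset.sum_congr rfl ?_
      intro u _
      exact ZMod.natCast_zmod_val _
    rw [h5]
    have := CharTwo.add_self_eq_zero ((((M v - κ v) / 2 : ℕ)) : ZMod 2)
    linear_combination this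
  have hcne : ∀ u v, G.Adj u v → G.dist u r ≠ G.dist v r → c u ≠ c v := by
    intro u v huv hd h1
    have h2 : G.dist u v = 1 := SimpleGraph.dist_eq_one_iff_adj.mpr huv
    have h2' : G.dist v u = 1 := SimpleGraph.dist_eq_one_iff_adj.mpr huv.symm
    have h3 : G.dist u r ≤ G.dist u v + G.dist v r := hc.dist_triangle
    have h4 : G.dist v r ≤ G.dist v u + G.dist u r := hc.dist_triangle
    have h5 : G.dist u r % 2 = G.dist v r % 2 := (ZMod.natCast_eq_natCast_iff' _ _ 2).mp h1
    omega
  have hcontra : ∀ u v, G.Adj u v → G.dist u r ≠ G.dist v r →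
      ∀ i j : ℕ, BA u + 4 * i = BA v + 4 * j → False := by
    intro u v huv hd i j hij
    have h1 : BA u / 2 + 2 * i = BA v / 2 + 2 * j := by omega
    have h2 := congrArg (Nat.cast : ℕ → ZMod 2) h1
    push_cast at h2
    have h4 : (2 : ZMod 2) = 0 := by decide
    rw [hdig0 u, hdig0 v, h4, zero_mul, zero_mul, add_zero, add_zero] at h2
    exact hcne u v huv hd h2
  have hK : ∀ u v, (levelGraph G r).Adj u v ↔ (G.Adj u v ∧ G.dist u r = G.dist v r) :=
    fun _ _ => Iff.rfl
  obtain ⟨w1, hw1, hl1⟩ := run G hc r par hpar (levelGraph G r) hK w0 tA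
    (fun e _ => by
      have h1 := hk1 e
      simp only [tA]
      by_cases hT : e ∈ TE
      · rw [if_pos hT]
        exact ⟨by omega, ⟨1 - w0.edges.count e + (h e).val, by omega⟩⟩
      · rw [if_neg hT, hk0 _ hT]
        exact ⟨by omega, ⟨(h e).val, by omega⟩⟩)
    (fun x hx => by
      have h1 := hk1 s(x, par x)
      simp only [tA]
      rw [if_pos (hmem x hx)]
      omega)
    BA (fun _ => rfl)
    (fun u v huv hd i j hij => hcontra u v huv hd i j hij)
  obtain ⟨w2, hw2, hl2⟩ := run G hc r par hpar (levelGraph G r) hK w0 tB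
    (fun e _ => by
      have h1 := hk1 e
      have h2 := hval e
      simp only [tB]
      by_cases hT : e ∈ TE
      · rw [if_pos hT]
        exact ⟨by omega, ⟨2 - (h e).val, by omega⟩⟩
      · rw [if_neg hT, hk0 _ hT]
        exact ⟨by omega, ⟨1 - (h e).val, by omega⟩⟩)
    (fun x hx => by
      have h1 := hk1 s(x, par x)
      have h2 := hval s(x, par x)
      simp only [tB]
      rw [if_pos (hmem x hx)]
      omega)
    BB (fun _ => rfl)
    (fun u v huv hd i j hij => by
      have h1 := hAB u
      have h2 := hAB v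
      refine hcontra u v huv hd
        (∑ x ∈ G.neighborFinset v, (1 + (if s(v, x) ∈ TE then 1 else 0)) + j)
        (∑ x ∈ G.neighborFinset u, (1 + (if s(u, x) ∈ TE then 1 else 0)) + i) ?_
      omega)
  have htot : ∑ e ∈ G.edgeFinset, tA e + ∑ e ∈ G.edgeFinset, tB e
      ≤ 2 * G.edgeFinset.card + 4 * (Fintype.card V - 1) := by
    have h1 : ∑ e ∈ G.edgeFinset, tA e + ∑ e ∈ G.edgeFinset, tB e
        = ∑ e ∈ G.edgeFinset, (2 + (if e ∈ TE then 4 else 0)) := by
      rw [← Finset.sum_add_distrib]
      refine Finset.sum_congr rfl ?_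
      intro e _
      have h1 := hk1 e
      have h2 := hval e
      simp only [tA, tB]
      by_cases hT : e ∈ TE
      · rw [if_pos hT, if_pos hT, if_pos hT]
        omega
      · rw [if_neg hT, if_neg hT, if_neg hT]
        omega
    rw [h1, Finset.sum_add_distrib, Finset.sum_const, smul_eq_mul, mul_comm]
    have h2 : ∑ e ∈ G.edgeFinset, (if e ∈ TE then 4 else 0) ≤ 4 * (Fintype.card V - 1) := by
      rw [← Finset.sum_filter, Finset.sum_const, smul_eq_mul, mul_comm]
      have h3 : (G.edgeFinset.filter (fun e => e ∈ TE)).card ≤ TE.card := by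
        apply Finset.card_le_card
        intro e he
        exact (Finset.mem_filter.mp he).2
      have h4 : TE.card ≤ Fintype.card V - 1 := by
        rw [hTE]
        refine Finset.card_image_le.trans ?_
        rw [Finset.card_erase_of_mem (Finset.mem_univ r), Finset.card_univ]
      omega
    omega
  by_cases hlt : ∑ e ∈ G.edgeFinset, tA e ≤ G.edgeFinset.card + 2 * (Fintype.card V - 1)
  · exact ⟨p, q, w1, hw1, by omega⟩
  · exact ⟨p, q, w2, hw2, by omega⟩

lemma card_level (G : SimpleGraph V) [DecidableRel G.Adj] (hc : G.Connected) (r : V) :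
    (levelGraph G r).edgeFinset.card + (Fintype.card V - 1) ≤ G.edgeFinset.card := by
  choose par hpar using exists_parent' hc r
  set TE : Finset (Sym2 V) := (Finset.univ.erase r).image (fun x => s(x, par x)) with hTE
  have hcard : TE.card = Fintype.card V - 1 := by
    rw [hTE, Finset.card_image_of_injOn, Finset.card_erase_of_mem (Finset.mem_univ r),
      Finset.card_univ]
    intro x hx y hy hxy
    have hx' : x ≠ r := by simpa using hx
    have hy' : y ≠ r := by simpa using hy
    have h1 := (hpar x hx').2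
    have h2 := (hpar y hy').2
    simp only [Sym2.eq_iff] at hxy
    rcases hxy with ⟨h, _⟩ | ⟨h, h'⟩
    · exact h
    · rw [h'] at h1
      rw [← h] at h2
      omega
  have hdis : Disjoint (levelGraph G r).edgeFinset TE := by
    rw [Finset.disjoint_left]
    intro e he hT
    rw [hTE, Finset.mem_image] at hT
    obtain ⟨x, hx, rfl⟩ := hT
    have hx' : x ≠ r := Finset.ne_of_mem_erase hx
    have h1 : (levelGraph G r).Adj x (par x) := by simpa using he
    have h2 := (hpar x hx').2
    have h3 := h1.2
    omega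
  rw [← hcard, ← Finset.card_union_of_disjoint hdis]
  apply Finset.card_le_card
  intro e he
  rcases Finset.mem_union.mp he with h | h
  · induction e using Sym2.ind with
    | _ u v =>
      have h1 : (levelGraph G r).Adj u v := by simpa using h
      simpa using h1.1
  · rw [hTE, Finset.mem_image] at h
    obtain ⟨x, hx, rfl⟩ := h
    simpa using (hpar x (Finset.ne_of_mem_erase hx)).1

theorem level_bound (V : Type) [Fintype V] [DecidableEq V] (G : SimpleGraph V) [DecidableRel G.Adj]
    (hc : G.Connected) (r : V) (hr : 2 ≤ G.degree r) :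
    ∃ (x y : V) (w : G.Walk x y), Irregularising G w ∧
      w.length ≤ G.edgeFinset.card + 2 * (Fintype.card V - 1)
        + 4 * (levelGraph G r).edgeFinset.card := by
  have h1 : 1 < (G.neighborFinset r).card := by
    rw [G.card_neighborFinset_eq_degree]; omega
  obtain ⟨a, ha, b, hb, hab⟩ := Finset.one_lt_card.mp h1
  exact level_aux G hc ((mem_nb G a r).mp ha).symm ((mem_nb G b r).mp hb) hab

end Pool.Agent.Helper6W.LevelThm
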