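import Mathlib

/-!
Walks with prescribed numbers of traversals of the edges, and irregularising walks.
-/

namespace Pool.Agent.Helper6W

open SimpleGraph

variable {V : Type} [Fintype V] [DecidableEq V]

/-- The degree of `v` in the multigraph `G + W`: every edge `vu` of `G` counts once plus the number
of times the walk `w` traverses it. -/
def degPlus (G : SimpleGraph V) [DecidableRel G.Adj] {x y : V} (w : G.Walk x y) (v : V) : ℕ :=
  ∑ u ∈ G.neighborFinset v, (1 + w.edges.count s(v, u))

/-- `w` is an irregularising walk of `G`: adjacent vertices have different degrees in `G + W`. -/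
def Irregularising (G : SimpleGraph V) [DecidableRel G.Adj] {x y : V} (w : G.Walk x y) : Prop :=
  ∀ u v, G.Adj u v → degPlus G w u ≠ degPlus G w v

omit [Fintype V] [DecidableEq V] in
lemma conn_closed {G : SimpleGraph V} (hc : G.Connected) (S : V → Prop) {a : V} (ha : S a)
    (hcl : ∀ u v, S u → G.Adj u v → S v) (v : V) : S v := by
  obtain ⟨p⟩ := hc.preconnected a v
  induction p with
  | nil => exact ha
  | cons h p ih => exact ih (hcl _ _ ha h)

lemma walk_aux (G : SimpleGraph V) [DecidableRel G.Adj]
    {x y : V} (t : Sym2 V → ℕ)
    (hreach : ∀ S : V → Prop, S x → (∀ a b, S a → G.Adj a b → 0 < t s(a, b) → S b) → ∀ v, S v) :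
    ∀ (n : ℕ) (w : G.Walk x y),
      (∀ e ∈ G.edgeSet, w.edges.count e ≤ t e ∧ Even (t e - w.edges.count e)) →
      (∑ e ∈ G.edgeFinset, (t e - w.edges.count e)) = n →
      ∃ w' : G.Walk x y, ∀ e ∈ G.edgeSet, w'.edges.count e = t e := by
  intro n
  induction n using Nat.strong_induction_on with
  | _ n ih =>
    intro w hw hn
    by_cases hall : ∀ e ∈ G.edgeSet, w.edges.count e = t e
    · exact ⟨w, hall⟩
    · push Not at hall
      obtain ⟨e0, he0, hne0⟩ := hall
      have key : ∃ a b, a ∈ w.support ∧ G.Adj a b ∧ w.edges.count s(a,b) < t s(a,b) := by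
        by_contra hcon
        push Not at hcon
        have hallv : ∀ v, v ∈ w.support := by
          intro v
          refine hreach (fun v => v ∈ w.support) (Walk.start_mem_support w) ?_ v
          intro a b ha hab h2
          have h1 := hcon a b ha hab
          have h3 : 0 < w.edges.count s(a,b) := by omega
          have h4 : s(a,b) ∈ w.edges := List.count_pos_iff.mp h3
          exact w.snd_mem_support_of_mem_edges h4
        induction e0 using Sym2.ind with
        | _ a b =>
          have hab : G.Adj a b := by simpa using he0
          have h1 := hcon a b (hallv a) hab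
          have h2 := (hw s(a,b) he0).1
          exact hne0 (le_antisymm h2 h1)
      obtain ⟨a, b, ha, hab, hlt⟩ := key
      have hcount : ∀ e, (((w.takeUntil a ha).append
          (Walk.cons hab (Walk.cons hab.symm (w.dropUntil a ha)))).edges).count e
          = w.edges.count e + (if e = s(a,b) then 2 else 0) := by
        intro e
        have hspec : w.edges.count e = (w.takeUntil a ha).edges.count e
            + (w.dropUntil a ha).edges.count e := by
          conv_lhs => rw [← w.take_spec ha]
          rw [Walk.edges_append, List.count_append]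
        rw [Walk.edges_append, Walk.edges_cons, Walk.edges_cons, List.count_append,
          List.count_cons, List.count_cons, hspec]
        have hsw : s(b, a) = s(a, b) := Sym2.eq_swap
        rw [hsw]
        by_cases he : e = s(a,b)
        · subst he; simp; omega
        · have he' : ¬ (s(a,b) = e) := fun h => he h.symm
          simp [he, he']
      have hmem : s(a,b) ∈ G.edgeSet := by simpa using hab
      obtain ⟨hle, hev⟩ := hw _ hmem
      have h2 : w.edges.count s(a,b) + 2 ≤ t s(a,b) := by
        obtain ⟨r, hr⟩ := hev
        omega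
      refine ih _ ?_ ((w.takeUntil a ha).append
          (Walk.cons hab (Walk.cons hab.symm (w.dropUntil a ha)))) ?_ rfl
      · rw [← hn]
        refine Finset.sum_lt_sum ?_ ⟨s(a,b), by simpa using hab, ?_⟩
        · intro e _
          rw [hcount e]
          omega
        · rw [hcount]
          simp
          omega
      · intro e he
        rw [hcount e]
        obtain ⟨h1, r, hr⟩ := hw e he
        by_cases hE : e = s(a,b)
        · subst hE
          rw [if_pos rfl]
          refine ⟨h2, ⟨r - 1, ?_⟩⟩
          omega
        · rw [if_neg hE]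
          exact ⟨by omega, ⟨r, by omega⟩⟩

/-- A walk can be lengthened by detours until it traverses every edge `e` exactly `t e` times, if
the edges with `t e > 0` connect all vertices and the parities are right. -/
lemma exists_walk' (G : SimpleGraph V) [DecidableRel G.Adj]
    {x y : V} (t : Sym2 V → ℕ)
    (hreach : ∀ S : V → Prop, S x → (∀ a b, S a → G.Adj a b → 0 < t s(a, b) → S b) → ∀ v, S v)
    (w : G.Walk x y)
    (hw : ∀ e ∈ G.edgeSet, w.edges.count e ≤ t e ∧ Even (t e - w.edges.count e)) :
    ∃ w' : G.Walk x y, (∀ e ∈ G.edgeSet, w'.edges.count e = t e) ∧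
      w'.length = ∑ e ∈ G.edgeFinset, t e := by
  obtain ⟨w', hw'⟩ := walk_aux G t hreach _ w hw rfl
  refine ⟨w', hw', ?_⟩
  have h1 : ∑ e ∈ G.edgeFinset, (w'.edges : Multiset (Sym2 V)).count e
      = Multiset.card (w'.edges : Multiset (Sym2 V)) := by
    apply Multiset.sum_count_eq_card
    intro e he
    simp only [Multiset.mem_coe] at he
    simpa using w'.edges_subset_edgeSet he
  have h2 : w'.length = ∑ e ∈ G.edgeFinset, w'.edges.count e := by
    simp only [Multiset.coe_count, Multiset.coe_card, Walk.length_edges] at h1
    exact h1.symm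
  rw [h2]
  refine Finset.sum_congr rfl ?_
  intro e he
  exact hw' e (by simpa using he)

lemma exists_walk (G : SimpleGraph V) [DecidableRel G.Adj] (hc : G.Connected)
    {x y : V} (t : Sym2 V → ℕ) (hpos : ∀ e ∈ G.edgeSet, 0 < t e) (w : G.Walk x y)
    (hw : ∀ e ∈ G.edgeSet, w.edges.count e ≤ t e ∧ Even (t e - w.edges.count e)) :
    ∃ w' : G.Walk x y, (∀ e ∈ G.edgeSet, w'.edges.count e = t e) ∧
      w'.length = ∑ e ∈ G.edgeFinset, t e := by
  refine exists_walk' G t ?_ w hw
  intro S hS hcl v
  exact conn_closed hc S hS (fun a b ha hab => hcl a b ha hab (hpos _ (by simpa using hab))) v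

omit [Fintype V] in
lemma exists_cherry [Fintype V] {G : SimpleGraph V} (hc : G.Connected)
    (h3 : 3 ≤ Fintype.card V) : ∃ x z y, G.Adj x z ∧ G.Adj z y ∧ x ≠ y := by
  by_contra hcon
  push Not at hcon
  have hnt : Nontrivial V := Fintype.one_lt_card_iff_nontrivial.mp (by omega)
  obtain ⟨r⟩ := hc.nonempty
  obtain ⟨a, hra⟩ := hc.preconnected.exists_adj_of_nontrivial r
  have hall : ∀ v, v = r ∨ v = a := by
    intro v
    refine conn_closed hc (fun v => v = r ∨ v = a) (a := r) (Or.inl rfl) ?_ v
    rintro u v (rfl | rfl) huv
    · right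
      exact (hcon a u v hra.symm huv).symm
    · left
      exact (hcon r u v hra huv).symm
  have h4 : Fintype.card V ≤ 2 := by
    have : (Finset.univ : Finset V) ⊆ {r, a} := by
      intro v _
      rcases hall v with h | h <;> simp [h]
    calc Fintype.card V = (Finset.univ : Finset V).card := rfl
      _ ≤ ({r, a} : Finset V).card := Finset.card_le_card this
      _ ≤ 2 := Finset.card_le_two
  omega

lemma edge_sum (G : SimpleGraph V) [DecidableRel G.Adj] {a b : V} (hab : G.Adj a b) (v : V) :
    ∑ u ∈ G.neighborFinset v, (if s(v, u) = s(a, b) then 1 else 0 : ℕ)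
      = (if v = a then 1 else 0) + (if v = b then 1 else 0) := by
  have hne : a ≠ b := hab.ne
  by_cases h1 : v = a
  · subst h1
    rw [if_pos rfl, if_neg hne, add_zero, Finset.sum_eq_single b]
    · simp
    · intro u _ hu
      rw [if_neg]
      simp only [Sym2.eq_iff]
      rintro (⟨_, h⟩ | ⟨h, h'⟩)
      · exact hu h
      · exact hne h
    · intro h
      exact absurd (by simpa using hab) h
  · by_cases h2 : v = b
    · subst h2
      rw [if_neg h1, if_pos rfl, zero_add, Finset.sum_eq_single a]
      · rw [if_pos]
        exact Sym2.eq_swap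
      · intro u _ hu
        rw [if_neg]
        simp only [Sym2.eq_iff]
        rintro (⟨h, _⟩ | ⟨_, h'⟩)
        · exact h1 h
        · exact hu h'
      · intro h
        exact absurd (by simpa using hab.symm) h
    · rw [if_neg h1, if_neg h2]
      apply Finset.sum_eq_zero
      intro u _
      rw [if_neg]
      simp only [Sym2.eq_iff]
      rintro (⟨h, _⟩ | ⟨h, _⟩)
      · exact h1 h
      · exact h2 h

end Pool.Agent.Helper6W
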